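import Pool.Agent.helper97.AS.Spec

/-!
# ALT: the alternating word
-/

set_option autoImplicit false

namespace Pool.Agent.helper97.AS

open Pool.Agent.helper20.LB (Step F IsSq Same Bd co)

theorem ALT_two (f : ℤ → ℤ) (h : ∀ y, f (y + 2) = f y + 1) (z k : ℤ) :
    f (z + 2 * k) = f z + k := by
  induction k using Int.induction_on with
  | zero => simp
  | succ n ih =>
    have h1 := h (z + 2 * (n : ℤ))
    have e : z + 2 * ((n : ℤ) + 1) = z + 2 * (n : ℤ) + 2 := by ring
    rw [e, h1, ih]; ring
  | pred n ih =>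
    have h1 := h (z + 2 * (-(n : ℤ) - 1))
    have e : z + 2 * (-(n : ℤ) - 1) + 2 = z + 2 * (-(n : ℤ)) := by ring
    rw [e, ih] at h1
    linarith

theorem ALT_even (f : ℤ → ℤ) (p τ : ℤ) (hp : Per f p τ) (h : ∀ y, f (y + 2) = f y + 1) :
    2 ≤ p ∧ p % 2 = 0 := by
  obtain ⟨_, hp1, hper⟩ := hp
  rcases Int.emod_two_eq_zero_or_one p with h0 | h1
  · exact ⟨by omega, h0⟩
  · exfalso
    obtain ⟨k, hk⟩ : ∃ k, p = 2 * k + 1 := ⟨p / 2, by omega⟩
    have a0 := hper 0
    have a1 := hper 1
    have b0 := ALT_two f h 1 k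
    have b1 := ALT_two f h 2 k
    have c0 := h 0
    have e0 : (0 : ℤ) + p = 1 + 2 * k := by omega
    have e1 : (1 : ℤ) + p = 2 + 2 * k := by omega
    have e2 : (0 : ℤ) + 2 = 2 := by norm_num
    rw [e0] at a0
    rw [e1] at a1
    rw [e2] at c0
    omega

theorem ALT : ALT_stmt := by
  intro f p τ x M hper hM h hc
  obtain ⟨hp2, hpe⟩ := ALT_even f p τ hper h
  have hs := hper.1 x
  obtain ⟨q, hq⟩ : ∃ q : ℤ, q = M / 4 := ⟨_, rfl⟩
  have hq0 : 0 ≤ q := by omega
  have v0 : f (x - 1) = f (x + 1) - 1 := by
    have h1 := h (x - 1)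
    have e : x - 1 + 2 = x + 1 := by ring
    rw [e] at h1
    linarith
  by_cases hM0 : M % 4 = 0
  · right
    right
    have v1 : f (x + M + 1) = f (x + 1) + 2 * q := by
      have h1 := ALT_two f h (x + 1) (2 * q)
      have e : x + 1 + 2 * (2 * q) = x + M + 1 := by omega
      rw [e] at h1
      exact h1
    have hT : TT f x M = 2 * q + 1 := by
      unfold TT
      omega
    rw [hT]
    unfold kk
    omega
  · have hlev : f (x + 2 * (q + 1) + 2 * (q + 1)) = f (x + 2 * (q + 1)) + (q + 1) :=
      ALT_two f h _ _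
    have hlo : f (x + 2 * (q + 1)) = f x + (q + 1) := ALT_two f h _ _
    have hc1 : f (x + 2 * (q + 1) + 1) = f (x + 1) + (q + 1) := by
      have h1 := ALT_two f h (x + 1) (q + 1)
      have e : x + 1 + 2 * (q + 1) = x + 2 * (q + 1) + 1 := by ring
      rw [e] at h1
      exact h1
    have hin : 4 * q + 4 ≤ p + M := by omega
    have ex : x + 2 * (q + 1) - 2 * (q + 1) = x := by ring
    have hF : F f (x + 2 * (q + 1)) (2 * (q + 1)) = 0 := by
      unfold F
      rw [ex]
      omega
    have hFc : F (co f) (x + 2 * (q + 1)) (2 * (q + 1)) = 0 := by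
      unfold F co
      rw [ex]
      omega
    have hT : TT f x M = f (x + M + 1) - f (x - 1) := rfl
    have hK : (f (x + 1) = f x + 1 → (kk (TT f x M) : ℤ) ≤ q) ∧
        (f (x + 1) = f x → (kk (M + 2 - TT f x M) : ℤ) ≤ q) := by
      have hcase : M = 4 * q + 1 ∨ M = 4 * q + 2 ∨ M = 4 * q + 3 := by omega
      rcases hcase with hm | hm | hm
      · have h1 := ALT_two f h x (2 * q + 1)
        have e : x + 2 * (2 * q + 1) = x + M + 1 := by omega
        rw [e] at h1
        unfold kk
        constructor
        · intro ha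
          omega
        · intro ha
          omega
      · have h1 := ALT_two f h (x + 1) (2 * q + 1)
        have e : x + 1 + 2 * (2 * q + 1) = x + M + 1 := by omega
        rw [e] at h1
        unfold kk
        constructor
        · intro ha
          omega
        · intro ha
          omega
      · have h1 := ALT_two f h x (2 * q + 2)
        have e : x + 2 * (2 * q + 2) = x + M + 1 := by omega
        rw [e] at h1
        unfold kk
        constructor
        · intro ha
          omega
        · intro ha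
          omega
    rcases (show f (x + 1) = f x + 1 ∨ f (x + 1) = f x by omega) with ha | ha
    · left
      left
      refine ⟨q + 1, (x + 2 * (q + 1), 2 * (q + 1)), ?_, ⟨?_, ?_, ?_, ?_⟩, ?_, ?_⟩
      · have := hK.1 ha
        omega
      · show 1 ≤ 2 * (q + 1)
        omega
      · show x ≤ x + 2 * (q + 1) - 2 * (q + 1)
        omega
      · show x + 2 * (q + 1) + 2 * (q + 1) ≤ x + p + M
        omega
      · exact hF
      · show f (x + 2 * (q + 1) + 1) = f (x + 2 * (q + 1)) + 1
        omega
      · show f (x + 2 * (q + 1) + 2 * (q + 1)) - f (x + 2 * (q + 1)) = q + 1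
        omega
    · right
      left
      left
      refine ⟨q + 1, (x + 2 * (q + 1), 2 * (q + 1)), ?_, ⟨?_, ?_, ?_, ?_⟩, ?_, ?_⟩
      · have := hK.2 ha
        omega
      · show 1 ≤ 2 * (q + 1)
        omega
      · show x ≤ x + 2 * (q + 1) - 2 * (q + 1)
        omega
      · show x + 2 * (q + 1) + 2 * (q + 1) ≤ x + p + M
        omega
      · exact hFc
      · show co f (x + 2 * (q + 1) + 1) = co f (x + 2 * (q + 1)) + 1
        unfold co
        omega
      · show co f (x + 2 * (q + 1) + 2 * (q + 1)) - co f (x + 2 * (q + 1)) = q + 1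
        unfold co
        omega

end Pool.Agent.helper97.AS
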